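import Pool.Agent.helper74.FD.SpecF

set_option autoImplicit false

open MeasureTheory Filter Set
open scoped ContDiff Topology ComplexConjugate

namespace Pool.Agent.FD

theorem FT1_proof (hFT0 : FT0_stmt) : FT1_stmt := by
  intro X f hf
  obtain ⟨h1, -, h3, -, h5⟩ := hFT0
  obtain ⟨R, hR⟩ := hf.bd
  have c1 : Continuous (ft f) := (h1 f hf.int).1
  have c2 : HasCompactSupport (ft f) := HasCompactSupport.intro (K := Icc (-R) R) isCompact_Icc fun x hx => hf.sp x fun hX => hx (abs_le.mp (hR x hX))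
  have c3 : Integrable (ft f) := c1.integrable_of_hasCompactSupport c2
  have c4 : ∀ x, f x = fti (ft f) x := fun x => (h3 f hf.cont hf.int c3 x).symm
  have c5 : ∀ x, ‖f x‖ ≤ ∫ ξ, ‖ft f ξ‖ := fun x => by
    rw [c4 x]
    exact (h1 (ft f) c3).2.2.2 x
  have c6 : Integrable (fun x => ‖f x‖ ^ 2) := by
    refine (hf.int.norm.const_mul (∫ ξ, ‖ft f ξ‖)).mono' (hf.cont.norm.pow 2).aestronglyMeasurable (Filter.Eventually.of_forall fun x => ?_)
    rw [Real.norm_eq_abs, abs_of_nonneg (by positivity), pow_two]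
    exact mul_le_mul_of_nonneg_right (c5 x) (norm_nonneg _)
  have c7 : MemLp f 2 := (memLp_two_iff_integrable_sq_norm hf.cont.aestronglyMeasurable).mpr c6
  exact ⟨c1, c2, c3, c4, ⟨_, c5⟩, c7, c6, (h5 f hf.int c7).1, (h5 f hf.int c7).2.1⟩

end Pool.Agent.FD
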