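import Pool.Agent.helper74.FD.SpecG

set_option autoImplicit false

open scoped MatrixGroups ContDiff Topology UpperHalfPlane ComplexConjugate
open UpperHalfPlane MeasureTheory Filter Set

namespace Pool.Agent.FD

open Pool.Agent.RS Pool.Agent.MS
open Pool.Agent.EN (XG MG mkX mkM fl pr)

theorem LOC_lM0 : lM 0 = 1 := by
  ext i j
  fin_cases i <;> fin_cases j <;> simp [lM]

/-- the identity of matrices -/
theorem LOC_id (hGLC : RS.GLC_stmt) (g : SL(2, ℝ)) (x τ v t ξ : ℝ) :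
    g * nM ξ * aM (-t) = g * (nM x * aM τ * lM v) * aM (-(τ + t)) * (lM (-(Real.exp (-(τ + t)) * v)) * nM (Real.exp t * (ξ - x))) := by
  obtain ⟨_, _, _, _, _, _, _, _, _, _, hA, hN, hL, _, _, _, _, hNA, hLA, _⟩ := hGLC
  have e1 : nM ξ = nM x * nM (ξ - x) := by
    rw [← hN]
    congr 1
    ring
  have e2 : nM (ξ - x) * aM (-t) = aM (-t) * nM (Real.exp t * (ξ - x)) := by
    rw [hNA, neg_neg]
  have e3 : lM v * aM (-(τ + t)) = aM (-(τ + t)) * lM (Real.exp (-(τ + t)) * v) := hLA _ _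
  have e4 : lM (Real.exp (-(τ + t)) * v) * lM (-(Real.exp (-(τ + t)) * v)) = 1 := by
    rw [← hL, add_neg_cancel, LOC_lM0]
  have e5 : aM τ * aM (-(τ + t)) = aM (-t) := by
    rw [← hA]
    congr 1
    ring
  calc g * nM ξ * aM (-t) = g * nM x * (nM (ξ - x) * aM (-t)) := by
        rw [e1]
        group
    _ = g * nM x * aM (-t) * nM (Real.exp t * (ξ - x)) := by
        rw [e2]
        group
    _ = g * nM x * (aM τ * aM (-(τ + t))) * (lM (Real.exp (-(τ + t)) * v) * lM (-(Real.exp (-(τ + t)) * v))) * nM (Real.exp t * (ξ - x)) := by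
        rw [e4, e5]
        group
    _ = g * nM x * aM τ * (aM (-(τ + t)) * lM (Real.exp (-(τ + t)) * v)) * lM (-(Real.exp (-(τ + t)) * v)) * nM (Real.exp t * (ξ - x)) := by
        group
    _ = _ := by
        rw [← e3]
        group

theorem LOC_near {η u y : ℝ} (h1 : η ≤ 1) (hu : |u| ≤ η) (hy : |y| ≤ η) : near1 η (lM u * nM y) := by
  have h0 : 0 ≤ η := (abs_nonneg u).trans hu
  have e00 : (lM u * nM y).1 0 0 = 1 := by simp [lM, nM, Matrix.mul_apply, Fin.sum_univ_two]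
  have e01 : (lM u * nM y).1 0 1 = y := by simp [lM, nM, Matrix.mul_apply, Fin.sum_univ_two]
  have e10 : (lM u * nM y).1 1 0 = u := by simp [lM, nM, Matrix.mul_apply, Fin.sum_univ_two]
  have e11 : (lM u * nM y).1 1 1 = u * y + 1 := by simp [lM, nM, Matrix.mul_apply, Fin.sum_univ_two]
  refine ⟨?_, ?_, ?_, ?_⟩
  · rw [e00]
    simpa using h0
  · rw [e11, add_sub_cancel_right, abs_mul]
    nlinarith [abs_nonneg u, abs_nonneg y]
  · rw [e01]
    exact hy
  · rw [e10]
    exact hu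

theorem LOC_proof (hKDC : KDC_stmt) (hGLC : RS.GLC_stmt) : LOC_stmt := by
  intro Γ θ η n' ε δ1 ξ g k w hθ hη hη1 hu hn' hδ hδ1 h2δ hk hw hwi hξ hkw hE hall t ht
  obtain ⟨x, τ, v, hp, hτ, hv, hx⟩ := hKDC k w δ1 hδ1 hk hw hwi hkw
  have hA := hGLC.2.2.2.2.2.2.2.2.2.2.1
  have hτ' := abs_le.mp hτ
  have ht1 := ht.1
  have ht2 := ht.2
  have hs0 : 0 ≤ τ + t := by linarith
  have hs1 : τ + t ≤ n' := by linarith
  rw [LOC_id hGLC g x τ v t ξ]
  have hux : |-(Real.exp (-(τ + t)) * v)| ≤ η := by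
    rw [abs_neg, abs_mul, abs_of_pos (Real.exp_pos _)]
    have : Real.exp (-(τ + t)) ≤ 1 := Real.exp_le_one_iff.mpr (by linarith)
    nlinarith [abs_nonneg v, Real.exp_pos (-(τ + t))]
  have hyx : |Real.exp t * (ξ - x)| ≤ η := by
    rw [abs_mul, abs_of_pos (Real.exp_pos _)]
    have h1 : |ξ - x| ≤ ε + 10 * (|w.re| + δ1) := by
      have : ξ - x = -((k • w).re - ξ) - (x - (k • w).re) := by ring
      rw [this]
      refine (abs_sub _ _).trans ?_
      rw [abs_neg]
      exact add_le_add hξ hx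
    have h2 : Real.exp t ≤ Real.exp n' := Real.exp_le_exp.mpr (by linarith)
    calc Real.exp t * |ξ - x| ≤ Real.exp n' * (ε + 10 * (|w.re| + δ1)) := mul_le_mul h2 h1 (abs_nonneg _) (Real.exp_pos _).le
      _ ≤ η := hE
  have hq := hu (g * (nM x * aM τ * lM v) * aM (-(τ + t))) _ (LOC_near hη1 hux hyx)
  have hs := hall (n' - (τ + t)) ⟨by linarith, by linarith⟩
  have e1 : g * k * aM (-n') * aM (n' - (τ + t)) = g * k * aM (-(τ + t)) := by
    rw [mul_assoc, ← hA]
    congr 2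
    ring
  rw [e1] at hs
  have e2 : θ (g * k * aM (-(τ + t))) = θ (g * (nM x * aM τ * lM v) * aM (-(τ + t))) := by
    rcases hp with h | h
    · rw [h]
    · rw [h, mul_neg, neg_mul, hθ.even]
  rw [e2] at hs
  have := (abs_le.mp hq).2
  linarith

end Pool.Agent.FD
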